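import Pool.Agent.H5.DPG.Stmts

/-!
Row PZS of the board `dpg`: polynomial time of one step of Zielonka.
-/

set_option autoImplicit false

namespace Pool.DPG

open Filter TMLib Pool.PG

namespace PZS

variable {α : Type} [Enc α]

theorem difp (h : PMAStmt) {G : α → Game} {X Y : α → List Bool} (hG : PTime G) (hX : PTime X)
    (hY : PTime Y) : PTime (fun a => dif (G a) (X a) (Y a)) :=
  PTime.comp (g := fun p : Game × List Bool × List Bool => dif p.1 p.2.1 p.2.2)
    (f := fun a => (G a, X a, Y a)) h.1 (PTime.pair hG (PTime.pair hX hY))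

theorem badp (h : PMAStmt) {G : α → Game} {X Y : α → List Bool} (hG : PTime G) (hX : PTime X)
    (hY : PTime Y) : PTime (fun a => bad (G a) (X a) (Y a)) :=
  PTime.comp (g := fun p : Game × List Bool × List Bool => bad p.1 p.2.1 p.2.2)
    (f := fun a => (G a, X a, Y a)) h.2.2.2.2.2.2 (PTime.pair hG (PTime.pair hX hY))

theorem plp (h : PMAStmt) {G : α → Game} {X : α → List Bool} (hG : PTime G) (hX : PTime X) :
    PTime (fun a => pl (G a) (X a)) :=
  PTime.comp (g := fun p : Game × List Bool => pl p.1 p.2)
    (f := fun a => (G a, X a)) h.2.2.2.2.1 (PTime.pair hG hX)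

theorem attp (h : PMAStmt) {i : α → Bool} {G : α → Game} {X Y : α → List Bool} (hi : PTime i)
    (hG : PTime G) (hX : PTime X) (hY : PTime Y) :
    PTime (fun a => att (i a) (G a) (X a) (Y a)) := by
  have h1 : ∀ j : Bool, PTime (fun a => att j (G a) (X a) (Y a)) := fun j =>
    PTime.comp (g := fun p : Game × List Bool × List Bool => att j p.1 p.2.1 p.2.2)
      (f := fun a => (G a, X a, Y a)) (h.2.1 j) (PTime.pair hG (PTime.pair hX hY))
  refine (PTime.ite (c := fun a => i a = true) (PTime.decide_true' hi) (h1 true)
    (h1 false)).congr fun a => ?_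
  cases hia : i a <;> simp

theorem mskp {n : α → ℕ} {f : α → ℕ → Bool} (hn : PTime n)
    (hf : PTime fun q : α × ℕ => f q.1 q.2) : PTime (fun a => msk (n a) (f a)) :=
  (PTime.map (l := fun a => List.range (n a)) (g := f) (PTime.range hn) hf).congr fun _ => rfl

theorem nilp {β : Type} [Enc β] {l : α → List β} (hl : PTime l) :
    PTime (fun a => decide ((l a).length = 0)) :=
  PTime.eq (PTime.length hl) (PTime.const 0)

theorem jnp {j : α → Bool} {G : α → Game} {B L : α → List Bool} (hG : PTime G) (hj : PTime j)
    (hB : PTime B) (hL : PTime L) : PTime (fun a => jn (G a) (j a) (B a) (L a)) := by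
  have h1 : PTime fun q : α × ℕ => q.1 := PTime.fst PTime.id
  have h2 : PTime fun q : α × ℕ => q.2 := PTime.snd PTime.id
  refine (PTime.ite (c := fun a => (L a).length = 0) (nilp hL) (PTime.const [])
    (mskp (n := fun a => (G a).length)
      (f := fun a v => if (B a).getD v false = true then j a else (L a).getD v false)
      (PTime.length hG) ?_)).congr fun a => ?_
  · exact PTime.ite (PTime.decide_true' (PTime.listGetD (hB.comp h1) h2 (PTime.const false)))
      (hj.comp h1) (PTime.listGetD (hL.comp h1) h2 (PTime.const false))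
  · simp only [jn, List.length_eq_zero_iff]

end PZS

theorem pzs_thm (h : PMAStmt) : PZSStmt := by
  intro α _ S G X L hS hG hX hL
  have hpl := PZS.plp h hG hX
  have hbad := PZS.badp h hG hX hL
  have hatt := PZS.attp h (PTime.not hpl) hG hX hbad
  have hdif := PZS.difp h hG hX hatt
  have hrec : PTime fun a => S a (dif (G a) (X a) (att (!pl (G a) (X a)) (G a) (X a)
      (bad (G a) (X a) (L a)))) :=
    PTime.comp (g := fun p : α × List Bool => S p.1 p.2) (f := fun a => (a, _)) hS
      (PTime.pair PTime.id hdif)
  have hjn := PZS.jnp hG (PTime.not hpl) hatt hrec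
  have h1 : PTime fun q : α × ℕ => q.1 := PTime.fst PTime.id
  have hm : PTime fun a => msk (G a).length fun _ => pl (G a) (X a) :=
    PZS.mskp (f := fun a _ => pl (G a) (X a)) (PTime.length hG) (hpl.comp h1)
  have hany : PTime fun a => (bad (G a) (X a) (L a)).any fun b => b :=
    PTime.any (l := fun a => bad (G a) (X a) (L a)) (g := fun _ b => b) hbad
      (PTime.snd PTime.id)
  refine (PTime.ite (c := fun a => (L a).length = 0) (PZS.nilp hL) (PTime.const [])
    (PTime.ite (c := fun a => ((bad (G a) (X a) (L a)).any fun b => b) = true)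
      (PTime.decide_true' hany) hjn hm)).congr fun a => ?_
  simp only [zs, List.length_eq_zero_iff]
  cases h0 : (bad (G a) (X a) (L a)).any fun b => b <;> simp

end Pool.DPG
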